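import Mathlib
import Pool.Agent.H93.PI.UniV
import Pool.Agent.H55.FU.GV
import Pool.Agent.H93.FU.NumVB

set_option autoImplicit false

/-!
# The Fröberg–Iarrobino formula for powers of linear forms in a linear range of degrees

Let `n ≥ 5`, `d ≥ 1`, `m = k₀ + 1 - d`, and `k₀ ≥ 128 m` if `m ≤ n - 1`, `k₀ ≥ 1024 m (1 + m / (n - 1)) ^ 2` otherwise.
For ALL `r`, the Hilbert function of the quotient of `ℂ[x_1, …, x_n]` by the `d`-th powers of `r` generic
linear forms is the coefficient of the truncated series `|(1 - t ^ d) ^ r / (1 - t) ^ n|` in all degrees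
`k ≤ k₀`; and it is so in all degrees, if the coefficient of `(1 - t ^ d) ^ r / (1 - t) ^ n` in the degree
`k₀` is not positive.

By the duality of Emsalem and Iarrobino this is a statement about the forms of degree `k` with
multiplicity `m = k + 1 - d` at `r` general points of `ℙ ^ (n - 1)`; the conditions have maximal rank if
`k ≥ 128 m`, `m ≤ n - 1` or `k ≥ 1024 m (1 + m / (n - 1)) ^ 2`.
-/

namespace Pool.Agent.Results.MP_9e2f2c_ag.LinearRange

open MvPolynomial

/-- The Hilbert function of the quotient of `ℂ[x_1, …, x_n]` by the ideal generated by the `d`-th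
powers of the linear forms `∑ i, a (s, i) * x_i`, in degree `k`. -/
noncomputable def hilb {n r : ℕ} (d : ℕ) (a : Fin r × Fin n → ℂ) (k : ℕ) : ℤ :=
  (Module.finrank ℂ (MvPolynomial.homogeneousSubmodule (Fin n) ℂ k) : ℤ) -
    (Module.finrank ℂ
      ↥(Submodule.restrictScalars ℂ
          (Ideal.span (Set.range fun s : Fin r =>
            (∑ i : Fin n, C (a (s, i)) * X i : MvPolynomial (Fin n) ℂ) ^ d)) ⊓
        MvPolynomial.homogeneousSubmodule (Fin n) ℂ k) : ℤ)

/-- The coefficient of `t ^ k` in `(1 - t) ^ (-n) * (1 - t ^ d) ^ r`. -/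
noncomputable def co (n r d k : ℕ) : ℤ :=
  PowerSeries.coeff k
    ((PowerSeries.mk fun _ => (1 : ℤ)) ^ n * (1 - PowerSeries.X ^ d) ^ r)

open Classical in
/-- The coefficient of `t ^ k` in the series `F_{n,r,d}`, that is, of `(1 - t ^ d) ^ r / (1 - t) ^ n`
truncated at its first coefficient that is not positive. -/
noncomputable def fro (n r d k : ℕ) : ℤ :=
  if ∀ j ≤ k, 0 < co n r d j then co n r d k else 0

/-- **Main result.** Let `n ≥ 5`, `d ≥ 1`, `m = k₀ + 1 - d` (natural subtraction), and let `m ≤ n - 1`, `128 m ≤ k₀` or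
`1024 m (n - 1 + m) ^ 2 ≤ (n - 1) ^ 2 k₀`. For all `r`, for `r` generic linear forms in `n` variables the
Hilbert function of the quotient by their `d`-th powers agrees with the series of Fröberg in all degrees
`k ≤ k₀`, and in all degrees (so `(n, r, d)` is expected) if `co n r d k₀ ≤ 0`. -/
theorem result (n r d k₀ : ℕ) (hn : 5 ≤ n) (hd : 1 ≤ d)
    (hk₀ : (k₀ + 1 - d ≤ n - 1 ∧ 128 * (k₀ + 1 - d) ≤ k₀) ∨
      1024 * (k₀ + 1 - d) * (n - 1 + (k₀ + 1 - d)) ^ 2 ≤ (n - 1) ^ 2 * k₀) :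
    ∃ P : MvPolynomial (Fin r × Fin n) ℂ, P ≠ 0 ∧
      ∀ a : Fin r × Fin n → ℂ, eval a P ≠ 0 → ∀ k : ℕ,
        (k ≤ k₀ ∨ co n r d k₀ ≤ 0) → hilb d a k = fro n r d k :=
  Pool.Agent.H93.PI.uniV (fun hE hm hmE hD => Pool.Agent.H55.FU.GC hE hm hmE hD)
    (fun hE hm hD => Pool.Agent.H55.FU.GV' Pool.Agent.H93.FU.numV hE hm hD) n r d k₀ hn hd hk₀

end Pool.Agent.Results.MP_9e2f2c_ag.LinearRange
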