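import Mathlib
import Pool.Agent.H93.PI.UniX
import Pool.Agent.H55.FU.GU
import Pool.Agent.H55.FW.GX

set_option autoImplicit false

/-!
# The Fröberg–Iarrobino formula for powers of linear forms in many variables

Let `d ≥ 1`, `2 k₀ ≤ 3 d - 2` and `n > 200 ^ (k₀ + 1 - d)` (natural subtraction). For ALL `r`, the Hilbert
function of the quotient of `ℂ[x_1, …, x_n]` by the `d`-th powers of `r` generic linear forms is the
coefficient of the truncated series `|(1 - t ^ d) ^ r / (1 - t) ^ n|` in all degrees `k ≤ k₀`; and it is so in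
all degrees, if the coefficient of `(1 - t ^ d) ^ r / (1 - t) ^ n` in the degree `k₀` is not positive. For
`n > 200 ^ (d / 2)` one can take `k₀ = ⌊3 d / 2⌋ - 1`.

By the duality of Emsalem and Iarrobino this is a statement about the forms of degree `k` with
multiplicity `m = k + 1 - d` at `r` general points of `ℙ ^ (n - 1)`; the conditions have maximal rank if
`k ≥ 3 m - 1` and `n > 200 ^ m`.
-/

namespace Pool.Agent.Results.MP_9e2f2c_ag.ManyVariables

open MvPolynomial

/-- The Hilbert function of the quotient of `ℂ[x_1, …, x_n]` by the ideal generated by the `d`-th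
powers of the linear forms `∑ i, a (s, i) * x_i`, in degree `k`. -/
noncomputable def hilb {n r : ℕ} (d : ℕ) (a : Fin r × Fin n → ℂ) (k : ℕ) : ℤ :=
  (Module.finrank ℂ (MvPolynomial.homogeneousSubmodule (Fin n) ℂ k) : ℤ) -
    (Module.finrank ℂ
      ↥(Submodule.restrictScalars ℂ
          (Ideal.span (Set.range fun s : Fin r =>
            (∑ i : Fin n, C (a (s, i)) * X i : MvPolynomial (Fin n) ℂ) ^ d)) ⊓
        MvPolynomial.homogeneousSubmodule (Fin n) ℂ k) : ℤ)

/-- The coefficient of `t ^ k` in `(1 - t) ^ (-n) * (1 - t ^ d) ^ r`. -/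
noncomputable def co (n r d k : ℕ) : ℤ :=
  PowerSeries.coeff k
    ((PowerSeries.mk fun _ => (1 : ℤ)) ^ n * (1 - PowerSeries.X ^ d) ^ r)

open Classical in
/-- The coefficient of `t ^ k` in the series `F_{n,r,d}`, that is, of `(1 - t ^ d) ^ r / (1 - t) ^ n`
truncated at its first coefficient that is not positive. -/
noncomputable def fro (n r d k : ℕ) : ℤ :=
  if ∀ j ≤ k, 0 < co n r d j then co n r d k else 0

/-- **Main result.** Let `d ≥ 1`, `2 k₀ + 2 ≤ 3 d` and `n ≥ 200 ^ (k₀ + 1 - d) + 1`. For all `r`, for `r` generic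
linear forms in `n` variables the Hilbert function of the quotient by their `d`-th powers agrees with the
series of Fröberg in all degrees `k ≤ k₀`, and in all degrees (so `(n, r, d)` is expected) if
`co n r d k₀ ≤ 0`. -/
theorem result (n r d k₀ : ℕ) (hn : 200 ^ (k₀ + 1 - d) + 1 ≤ n) (hd : 1 ≤ d)
    (hk₀ : 2 * k₀ + 2 ≤ 3 * d) :
    ∃ P : MvPolynomial (Fin r × Fin n) ℂ, P ≠ 0 ∧
      ∀ a : Fin r × Fin n → ℂ, eval a P ≠ 0 → ∀ k : ℕ,
        (k ≤ k₀ ∨ co n r d k₀ ≤ 0) → hilb d a k = fro n r d k :=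
  Pool.Agent.H93.PI.uniX (fun hm hE => Pool.Agent.H55.FW.GBx hm hE)
    (fun E D => Pool.Agent.H55.FU.G_one E D) n r d k₀ hn hd hk₀

end Pool.Agent.Results.MP_9e2f2c_ag.ManyVariables
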