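import Mathlib
import Pool.Agent.H93.PI.Bridge
import Pool.Agent.H55.FU.GU
import Pool.Agent.H55.FX.GX3

set_option autoImplicit false

/-!
# The Fröberg–Iarrobino formula for powers of linear forms, two degrees above the generators

For ALL `r`, the Hilbert function of the quotient of `ℂ[x_1, …, x_n]` by the `d`-th powers of `r` generic
linear forms is the coefficient of the truncated series `|(1 - t ^ d) ^ r / (1 - t) ^ n|` in all degrees
`k ≤ d + 2`; and it is so in all degrees, if the coefficient of `(1 - t ^ d) ^ r / (1 - t) ^ n` in the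
degree `d + 2` is not positive. Here `n ≥ 5` and

* `d ≥ 30` for `n = 5`, `21` for `n = 6`, `17` for `n = 7`, `15` for `n = 8`, `14` for `n = 9`, `13` for
  `n = 10`, `12` for `11 ≤ n ≤ 14`, `11` for `15 ≤ n ≤ 18`, `10` for `19 ≤ n ≤ 24`, `9` for
  `25 ≤ n ≤ 42`, `8` for `43 ≤ n ≤ 312` and `7` for `n ≥ 313`.

By the duality of Emsalem and Iarrobino this is a statement about the forms of degree `d + 2` with
triple points at `r` general points of `ℙ ^ (n - 1)`.
-/

namespace Pool.Agent.Results.MP_9e2f2c_ag.TripleRange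

open MvPolynomial

/-- The Hilbert function of the quotient of `ℂ[x_1, …, x_n]` by the ideal generated by the `d`-th
powers of the linear forms `∑ i, a (s, i) * x_i`, in degree `k`. -/
noncomputable def hilb {n r : ℕ} (d : ℕ) (a : Fin r × Fin n → ℂ) (k : ℕ) : ℤ :=
  (Module.finrank ℂ (MvPolynomial.homogeneousSubmodule (Fin n) ℂ k) : ℤ) -
    (Module.finrank ℂ
      ↥(Submodule.restrictScalars ℂ
          (Ideal.span (Set.range fun s : Fin r =>
            (∑ i : Fin n, C (a (s, i)) * X i : MvPolynomial (Fin n) ℂ) ^ d)) ⊓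
        MvPolynomial.homogeneousSubmodule (Fin n) ℂ k) : ℤ)

/-- The coefficient of `t ^ k` in `(1 - t) ^ (-n) * (1 - t ^ d) ^ r`. -/
noncomputable def co (n r d k : ℕ) : ℤ :=
  PowerSeries.coeff k
    ((PowerSeries.mk fun _ => (1 : ℤ)) ^ n * (1 - PowerSeries.X ^ d) ^ r)

open Classical in
/-- The coefficient of `t ^ k` in the series `F_{n,r,d}`, that is, of `(1 - t ^ d) ^ r / (1 - t) ^ n`
truncated at its first coefficient that is not positive. -/
noncomputable def fro (n r d k : ℕ) : ℤ :=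
  if ∀ j ≤ k, 0 < co n r d j then co n r d k else 0

/-- **Main result.** Let `n` and `d` satisfy one of the twelve pairs of inequalities. For all `r`, for `r`
generic linear forms in `n` variables the Hilbert function of the quotient by their `d`-th powers agrees
with the series of Fröberg in all degrees `k ≤ d + 2`, and in all degrees (so `(n, r, d)` is expected) if
`co n r d (d + 2) ≤ 0`. -/
theorem result (n r d : ℕ)
    (h : (5 ≤ n ∧ 30 ≤ d) ∨ (6 ≤ n ∧ 21 ≤ d) ∨ (7 ≤ n ∧ 17 ≤ d) ∨ (8 ≤ n ∧ 15 ≤ d) ∨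
      (9 ≤ n ∧ 14 ≤ d) ∨ (10 ≤ n ∧ 13 ≤ d) ∨ (11 ≤ n ∧ 12 ≤ d) ∨ (15 ≤ n ∧ 11 ≤ d) ∨
      (19 ≤ n ∧ 10 ≤ d) ∨ (25 ≤ n ∧ 9 ≤ d) ∨ (43 ≤ n ∧ 8 ≤ d) ∨ (313 ≤ n ∧ 7 ≤ d)) :
    ∃ P : MvPolynomial (Fin r × Fin n) ℂ, P ≠ 0 ∧
      ∀ a : Fin r × Fin n → ℂ, eval a P ≠ 0 → ∀ k : ℕ,
        (k ≤ d + 2 ∨ co n r d (d + 2) ≤ 0) → hilb d a k = fro n r d k := by
  have h5 : 5 ≤ n ∧ 7 ≤ d := by omega
  obtain ⟨E, rfl⟩ : ∃ E, n = E + 2 := ⟨n - 2, by omega⟩
  have hT : Pool.Agent.H55.FX.Tab (E + 1) (d + 1) := by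
    refine (Or.imp (fun h => ⟨by omega, by omega⟩)
      (Or.imp (fun h => ⟨by omega, by omega⟩)
      (Or.imp (fun h => ⟨by omega, by omega⟩)
      (Or.imp (fun h => ⟨by omega, by omega⟩)
      (Or.imp (fun h => ⟨by omega, by omega⟩)
      (Or.imp (fun h => ⟨by omega, by omega⟩)
      (Or.imp (fun h => ⟨by omega, by omega⟩)
      (Or.imp (fun h => ⟨by omega, by omega⟩)
      (Or.imp (fun h => ⟨by omega, by omega⟩)
      (Or.imp (fun h => ⟨by omega, by omega⟩)
      (Or.imp (fun h => ⟨by omega, by omega⟩)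
      (fun h => ⟨by omega, by omega⟩)))))))))))) h
  have hG := Pool.Agent.H55.FX.G3 hT
  have h2 : d + 2 ≤ 2 * d - 1 := by omega
  obtain ⟨Φ, hΦ, hΦ'⟩ := Pool.Agent.H93.PI.main_fro (E := E) (r := r) (d := d) (k₀ := d + 2)
    (by omega) h2 fun k hdk hk => by
      obtain rfl | hk1 : k = d ∨ d + 1 ≤ k := by omega
      · obtain ⟨E, rfl⟩ : ∃ E', E = E' + 1 := ⟨E - 1, by omega⟩
        rw [show k + 1 - k = 1 by omega]
        exact Pool.Agent.H55.FU.G_one E _
      · exact fun n w hw d' hd' htot => hG n w (fun i => (hw i).trans (by omega)) d' (by omega) htot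
  refine ⟨Φ, hΦ, fun a ha k hk => ?_⟩
  rcases hk with hk | hk
  · exact (hΦ' a ha).1 k hk
  · refine (hΦ' a ha).2 ?_ k
    have hk' := hk
    change Pool.Agent.H93.PI.co (E + 2) r d (d + 2) ≤ 0 at hk'
    rw [Pool.Agent.H93.PI.co_eq (by omega) h2, sub_nonpos] at hk'
    exact_mod_cast hk'

end Pool.Agent.Results.MP_9e2f2c_ag.TripleRange
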