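import Mathlib
import Pool.Agent.H93.PI.UniW
import Pool.Agent.H55.FU.GU
import Pool.Agent.H93.FU.NumU

set_option autoImplicit false

/-!
# The Fröberg–Iarrobino formula for powers of linear forms, uniformly in the number of variables

Let `n ≥ 4`, `d ≥ 1`, `m = k₀ + 1 - d` and `64 ^ (n - 3) * m ^ (2 n - 4) ≤ k₀ ^ (n - 3)`, that is,
`k₀ ≥ 64 m ^ (2 + 2 / (n - 3))` (so `k₀ ≥ 64 m ^ 4` is enough for all `n`). For ALL `r`, the Hilbert function
of the quotient of `ℂ[x_1, …, x_n]` by the `d`-th powers of `r` generic linear forms is the coefficient of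
the truncated series `|(1 - t ^ d) ^ r / (1 - t) ^ n|` in all degrees `k ≤ k₀`; and it is so in all degrees,
if the coefficient of `(1 - t ^ d) ^ r / (1 - t) ^ n` in the degree `k₀` is not positive.

By the duality of Emsalem and Iarrobino this is a statement about the forms of degree `k` with
multiplicity `m = k + 1 - d` at `r` general points of `ℙ ^ (n - 1)`; the conditions have maximal rank if
`k ≥ 64 m ^ (2 + 2 / (n - 3))`.
-/

namespace Pool.Agent.Results.MP_9e2f2c_ag.UniformInVariables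

open MvPolynomial

/-- The Hilbert function of the quotient of `ℂ[x_1, …, x_n]` by the ideal generated by the `d`-th
powers of the linear forms `∑ i, a (s, i) * x_i`, in degree `k`. -/
noncomputable def hilb {n r : ℕ} (d : ℕ) (a : Fin r × Fin n → ℂ) (k : ℕ) : ℤ :=
  (Module.finrank ℂ (MvPolynomial.homogeneousSubmodule (Fin n) ℂ k) : ℤ) -
    (Module.finrank ℂ
      ↥(Submodule.restrictScalars ℂ
          (Ideal.span (Set.range fun s : Fin r =>
            (∑ i : Fin n, C (a (s, i)) * X i : MvPolynomial (Fin n) ℂ) ^ d)) ⊓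
        MvPolynomial.homogeneousSubmodule (Fin n) ℂ k) : ℤ)

/-- The coefficient of `t ^ k` in `(1 - t) ^ (-n) * (1 - t ^ d) ^ r`. -/
noncomputable def co (n r d k : ℕ) : ℤ :=
  PowerSeries.coeff k
    ((PowerSeries.mk fun _ => (1 : ℤ)) ^ n * (1 - PowerSeries.X ^ d) ^ r)

open Classical in
/-- The coefficient of `t ^ k` in the series `F_{n,r,d}`, that is, of `(1 - t ^ d) ^ r / (1 - t) ^ n`
truncated at its first coefficient that is not positive. -/
noncomputable def fro (n r d k : ℕ) : ℤ :=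
  if ∀ j ≤ k, 0 < co n r d j then co n r d k else 0

/-- **Main result.** Let `n ≥ 4`, `d ≥ 1` and `64 ^ (n - 3) * (k₀ + 1 - d) ^ (2 n - 4) ≤ k₀ ^ (n - 3)`. For all
`r`, for `r` generic linear forms in `n` variables the Hilbert function of the quotient by their `d`-th
powers agrees with the series of Fröberg in all degrees `k ≤ k₀`, and in all degrees (so `(n, r, d)` is
expected) if `co n r d k₀ ≤ 0`. -/
theorem result (n r d k₀ : ℕ) (hn : 4 ≤ n) (hd : 1 ≤ d)
    (hk₀ : 64 ^ (n - 3) * (k₀ + 1 - d) ^ (2 * n - 4) ≤ k₀ ^ (n - 3)) :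
    ∃ P : MvPolynomial (Fin r × Fin n) ℂ, P ≠ 0 ∧
      ∀ a : Fin r × Fin n → ℂ, eval a P ≠ 0 → ∀ k : ℕ,
        (k ≤ k₀ ∨ co n r d k₀ ≤ 0) → hilb d a k = fro n r d k := by
  obtain ⟨E, rfl⟩ : ∃ E, n = E + 3 := ⟨n - 3, by omega⟩
  rw [show E + 3 - 3 = E by omega, show 2 * (E + 3) - 4 = 2 * E + 2 by omega] at hk₀
  exact Pool.Agent.H93.PI.uniU (fun {E m D} hE hm hD =>
    Pool.Agent.H55.FU.GU' Pool.Agent.H93.FU.numU hE hm hD) E r d k₀ (by omega) hd hk₀

end Pool.Agent.Results.MP_9e2f2c_ag.UniformInVariables
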